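import Pool.Agent.Helper61.GL.Push
import Pool.Agent.Helper63.RK.E10

/-!
# Discrete noise: the Kaimanovich-Vershik inequality and filling of a frame
-/

set_option autoImplicit false

namespace Pool.Agent.Helper66.VW

open Finset Pool.Agent.Helper69.RK Pool.Agent.Helper61.GL

variable {Ω α β γ φ : Type} [Fintype Ω]

/-- **Kaimanovich-Vershik, one step**: `I(X; X + Y + Z | F) ≤ I(X; X + Y | F) + e` if `Z` is independent of
`(X, Y)` given `F` up to `e`. (Written with the conditional entropies of `X`.) -/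
theorem kv_step {G : Type} [AddCommGroup G] (μ : Ω → ℝ) (hμ : ∀ ω, 0 ≤ μ ω) (X : Ω → α) (Y : Ω → G)
    (Z : Ω → G) (F : Ω → φ) (e : ℝ)
    (hZ : CH μ Z F ≤ CH μ Z (fun ω => (X ω, Y ω, F ω)) + e) :
    CH μ X (fun ω => (Y ω, F ω)) ≤ CH μ X (fun ω => (Y ω + Z ω, F ω)) + e := by
  have h1 : CH μ X (fun ω => (Z ω, Y ω, F ω)) ≤ CH μ X (fun ω => (Y ω + Z ω, F ω)) := by
    apply ch_cond μ hμ
    intro ω ω' _ _ h
    rw [Prod.mk.injEq, Prod.mk.injEq] at h
    rw [Prod.mk.injEq]
    exact ⟨by rw [h.1, h.2.1], h.2.2⟩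
  have h2 := ch_symm μ X Z (fun ω => (Y ω, F ω))
  have h3 : CH μ Z (fun ω => (Y ω, F ω)) ≤ CH μ Z F := by
    apply ch_cond μ hμ
    intro ω ω' _ _ h
    exact (Prod.ext_iff.1 h).2
  linarith

/-! ### products with a uniform variable -/

section uniform

variable (ι : Type) [Fintype ι] (μ : Ω → ℝ)

/-- weights of the product with a uniform variable with values in `ι` -/
noncomputable def nu : Ω × ι → ℝ := fun p => μ p.1 / Fintype.card ι

omit [Fintype Ω] in
theorem nu_nonneg (hμ : ∀ ω, 0 ≤ μ ω) (p : Ω × ι) : 0 ≤ nu ι μ p :=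
  div_nonneg (hμ _) (Nat.cast_nonneg _)

theorem nu_push_fst [Nonempty ι] : push Prod.fst (nu ι μ) = μ := by
  classical
  funext ω
  unfold push nu
  rw [Fintype.sum_prod_type]
  have hc : (Fintype.card ι : ℝ) ≠ 0 := Nat.cast_ne_zero.2 Fintype.card_ne_zero
  rw [Finset.sum_eq_single ω]
  · simp only [if_true, Finset.sum_const, Finset.card_univ, nsmul_eq_mul]
    field_simp
  · intro ω' _ h
    apply Finset.sum_eq_zero
    intro x _
    rw [if_neg h]
  · intro h
    exact absurd (Finset.mem_univ _) h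

theorem nu_mass [Nonempty ι] : mass (nu ι μ) = mass μ := by
  have h := push_sum Prod.fst (nu ι μ) (fun _ => 1)
  rw [nu_push_fst] at h
  simp only [mul_one] at h
  exact h.symm

theorem nu_CH_fst [Nonempty ι] (f : Ω → α) (g : Ω → γ) :
    CH (nu ι μ) (fun p => f p.1) (fun p => g p.1) = CH μ f g := by
  rw [← push_CH Prod.fst, nu_push_fst]

theorem pr_inj {Ω' : Type} [Fintype Ω'] (ν : Ω' → ℝ) (f : Ω' → α) (hf : Function.Injective f) (w : Ω') :
    pr ν f w = ν w := by
  classical
  unfold pr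
  rw [Finset.sum_eq_single w]
  · rw [if_pos rfl]
  · intro w' _ h
    rw [if_neg (fun e => h (hf e))]
  · intro h
    exact absurd (Finset.mem_univ _) h

theorem nu_CH_snd [Nonempty ι] :
    CH (nu ι μ) (fun p => p.2) (fun p => p.1) = Real.logb 2 (Fintype.card ι) * mass μ := by
  have hc : (Fintype.card ι : ℝ) ≠ 0 := Nat.cast_ne_zero.2 Fintype.card_ne_zero
  have h1 : ∀ p : Ω × ι, pr (nu ι μ) (fun p => p.1) p = μ p.1 := by
    intro p
    have h := push_pr Prod.fst (nu ι μ) (fun ω => ω) p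
    rw [nu_push_fst] at h
    rw [← h]
    exact pr_inj μ (fun ω => ω) Function.injective_id p.1
  have h2 : ∀ p : Ω × ι, pr (nu ι μ) (fun p => (p.2, p.1)) p = nu ι μ p := by
    intro p
    apply pr_inj
    intro p p' h
    rw [Prod.mk.injEq] at h
    exact Prod.ext h.2 h.1
  unfold CH
  rw [← nu_mass ι μ]
  unfold mass
  rw [Finset.mul_sum]
  refine Finset.sum_congr rfl fun p _ => ?_
  rw [h1, h2, mul_comm (Real.logb _ _)]
  by_cases h0 : μ p.1 = 0
  · unfold nu
    rw [h0]
    simp
  congr 1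
  unfold nu
  rw [Real.logb_div h0 hc]
  ring

theorem nu_CH_le (ν : Ω → ℝ) (hν : ∀ ω, 0 ≤ ν ω) (A : Ω → ι) (G : Ω → γ) :
    CH ν A G ≤ Real.logb 2 (Fintype.card ι) * mass ν := by
  classical
  have h := st_E3.1 Ω ι γ ν A G (fun _ => (Fintype.card ι : ℝ)) hν (fun ω _ => by
    exact_mod_cast Finset.card_le_univ _)
  refine h.trans (le_of_eq ?_)
  unfold mass
  rw [Finset.mul_sum]
  exact Finset.sum_congr rfl fun ω _ => mul_comm _ _

theorem nu_CH_snd' [Nonempty ι] (hμ : ∀ ω, 0 ≤ μ ω) (G : Ω → γ) :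
    CH (nu ι μ) (fun p => p.2) (fun p => G p.1) = Real.logb 2 (Fintype.card ι) * mass μ := by
  apply le_antisymm
  · rw [← nu_mass ι μ]
    exact nu_CH_le ι _ (nu_nonneg ι μ hμ) _ _
  · rw [← nu_CH_snd]
    apply ch_cond _ (nu_nonneg ι μ hμ)
    intro p p' _ _ h
    show G p.1 = G p'.1
    rw [h]

end uniform

/-- one coordinate of a uniform vector is uniform -/
theorem nu_push_eval (μ : Ω → ℝ) (r L : ℕ) (hL : 1 ≤ L) (b : Fin r) :
    push (fun p : Ω × (Fin r → Fin L) => (p.1, p.2 b)) (nu (Fin r → Fin L) μ) = nu (Fin L) μ := by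
  classical
  funext p
  obtain ⟨ω, k⟩ := p
  have hL0 : (L : ℝ) ≠ 0 := by positivity
  unfold push nu
  rw [Fintype.sum_prod_type, Finset.sum_eq_single ω]
  · refine (Finset.sum_congr rfl fun K _ => ?_).trans (b := ∑ K : Fin r → Fin L,
      if K b = k then μ ω / (Fintype.card (Fin r → Fin L) : ℝ) else 0) ?_
    · by_cases h : K b = k
      · rw [if_pos h, if_pos (by rw [← h])]
      · rw [if_neg h, if_neg (fun e => h (Prod.ext_iff.1 e).2)]
    rw [← Finset.sum_filter, Finset.sum_const, nsmul_eq_mul]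
    have h2 : (univ.filter (fun K : Fin r → Fin L => K b = k)) =
        Fintype.piFinset (fun i => if i = b then ({k} : Finset (Fin L)) else univ) := by
      ext K
      rw [Finset.mem_filter, Fintype.mem_piFinset]
      constructor
      · rintro ⟨_, h⟩ i
        by_cases hi : i = b
        · rw [if_pos hi, hi, Finset.mem_singleton]
          exact h
        · rw [if_neg hi]
          exact Finset.mem_univ _
      · intro h
        refine ⟨Finset.mem_univ _, ?_⟩
        have := h b
        rw [if_pos rfl, Finset.mem_singleton] at this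
        exact this
    rw [h2, Fintype.card_piFinset]
    have h3 : (∏ i : Fin r, (if i = b then ({k} : Finset (Fin L)) else univ).card) * L = L ^ r := by
      rw [← Finset.mul_prod_erase univ _ (Finset.mem_univ b), if_pos rfl, Finset.card_singleton, one_mul]
      have h4 : ∏ i ∈ univ.erase b, (if i = b then ({k} : Finset (Fin L)) else univ).card =
          ∏ i ∈ univ.erase b, L := by
        refine Finset.prod_congr rfl fun i hi => ?_
        rw [if_neg (Finset.ne_of_mem_erase hi), Finset.card_univ, Fintype.card_fin]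
      rw [h4, Finset.prod_const, Finset.card_erase_of_mem (Finset.mem_univ b), Finset.card_univ,
        Fintype.card_fin, ← pow_succ]
      congr 1
      have : 0 < r := Fin.pos b
      omega
    have h5 : (((∏ i : Fin r, (if i = b then ({k} : Finset (Fin L)) else univ).card : ℕ) : ℝ)) * L =
        (L : ℝ) ^ r := by exact_mod_cast h3
    rw [Fintype.card_fun, Fintype.card_fin, Fintype.card_fin]
    push_cast at h5 ⊢
    rw [← h5]
    have h6 : ((∏ i : Fin r, ((if i = b then ({k} : Finset (Fin L)) else univ).card : ℝ))) ≠ 0 := by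
      intro h
      rw [h, zero_mul] at h5
      exact pow_ne_zero r hL0 h5.symm
    field_simp
  · intro ω' _ h
    apply Finset.sum_eq_zero
    intro K _
    rw [if_neg (fun e => h (Prod.ext_iff.1 e).1)]
  · intro h
    exact absurd (Finset.mem_univ _) h

/-- **FILLING A FRAME** (Kaimanovich-Vershik): if adding `{0,..,L-1}` uniformly to any single coordinate of `X`
raises the entropy by at most `J b`, then `X` has `r log L` bits more than its coarse cell, up to `∑ J b + r` -/
theorem fill (μ : Ω → ℝ) (hμ : ∀ ω, 0 ≤ μ ω) (r L : ℕ) (hL : 1 ≤ L) (X : Ω → Fin r → ℤ) (F : Ω → φ)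
    (J : Fin r → ℝ)
    (hJ : ∀ b, CH (nu (Fin L) μ) (fun p => fun i => X p.1 i + if i = b then ((p.2 : ℕ) : ℤ) else 0)
      (fun p => F p.1) ≤ CH μ X F + J b) :
    CH μ (fun ω i => X ω i / (L : ℤ)) F + r * Real.logb 2 L * mass μ ≤
      CH μ X F + ∑ b, J b + r * mass μ := by
  classical
  have : Nonempty (Fin L) := ⟨⟨0, hL⟩⟩
  set ν := nu (Fin r → Fin L) μ with hν
  have hν0 : ∀ p, 0 ≤ ν p := nu_nonneg _ _ hμ
  have hνm : mass ν = mass μ := nu_mass _ _
  have hcard : Real.logb 2 (Fintype.card (Fin r → Fin L)) = r * Real.logb 2 L := by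
    rw [Fintype.card_fun, Fintype.card_fin, Fintype.card_fin]
    push_cast
    rw [Real.logb_pow]
  have hL0 : (0 : ℤ) < L := by exact_mod_cast hL
  -- upper bound
  have hE := st_E10 st_E1 (st_E2 st_E1) (Ω × (Fin r → Fin L)) (Fin r → ℤ) (Fin L) φ r ν (fun p => X p.1)
    (fun b p => p.2 b) (fun b p => fun i => - (if i = b then ((p.2 b : ℕ) : ℤ) else 0)) (fun p => F p.1) 0 hν0
    (by
      intro b p p' _ _ h
      rw [Prod.mk.injEq] at h
      funext i
      show - (if i = b then ((p.2 b : ℕ) : ℤ) else 0) = - (if i = b then ((p'.2 b : ℕ) : ℤ) else 0)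
      rw [h.1])
    (by
      have h1 : CH ν (fun p b => p.2 b) (fun p => (X p.1, F p.1)) = r * Real.logb 2 L * mass μ := by
        rw [← hcard]
        exact nu_CH_snd' (Fin r → Fin L) μ hμ (fun ω => (X ω, F ω))
      rw [h1, sub_zero]
      have h2 : ∀ b : Fin r, CH ν (fun p => p.2 b) (fun p => F p.1) ≤ Real.logb 2 L * mass μ := by
        intro b
        have := nu_CH_le (Fin L) ν hν0 (fun p => p.2 b) (fun p => F p.1)
        rwa [Fintype.card_fin, hνm] at this
      refine (Finset.sum_le_sum fun b _ => h2 b).trans (le_of_eq ?_)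
      rw [Finset.sum_const, Finset.card_univ, Fintype.card_fin, nsmul_eq_mul]
      ring)
  have e1 : CH ν (fun p => X p.1) (fun p => F p.1) = CH μ X F := nu_CH_fst _ μ X F
  have e2 : ∀ b : Fin r, CH ν (fun p => X p.1 - fun i => - (if i = b then ((p.2 b : ℕ) : ℤ) else 0))
      (fun p => F p.1) = CH (nu (Fin L) μ)
        (fun p => fun i => X p.1 i + if i = b then ((p.2 : ℕ) : ℤ) else 0) (fun p => F p.1) := by
    intro b
    rw [← nu_push_eval μ r L hL b, push_CH]
    congr 1
    funext p i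
    simp only [Pi.sub_apply, sub_neg_eq_add]
  have e3 : (fun p : Ω × (Fin r → Fin L) => X p.1 - ∑ b : Fin r, fun i =>
      - (if i = b then ((p.2 b : ℕ) : ℤ) else 0)) = fun p => fun i => X p.1 i + ((p.2 i : ℕ) : ℤ) := by
    funext p i
    rw [Pi.sub_apply, Finset.sum_apply, Finset.sum_neg_distrib, sub_neg_eq_add, Finset.sum_ite_eq,
      if_pos (Finset.mem_univ i)]
  rw [e3, e1] at hE
  have hE' : CH ν (fun p => fun i => X p.1 i + ((p.2 i : ℕ) : ℤ)) (fun p => F p.1) ≤
      CH μ X F + ∑ b, J b := by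
    refine hE.trans ?_
    have h3 : ∑ b : Fin r, (CH ν (fun p => X p.1 - fun i => - (if i = b then ((p.2 b : ℕ) : ℤ) else 0))
        (fun p => F p.1) - CH μ X F) ≤ ∑ b, J b := by
      refine Finset.sum_le_sum fun b _ => ?_
      rw [e2 b]
      linarith [hJ b]
    linarith
  -- lower bound
  set Z : Ω × (Fin r → Fin L) → Fin r → ℤ := fun p => fun i => X p.1 i + ((p.2 i : ℕ) : ℤ) with hZ
  set Q : Ω × (Fin r → Fin L) → Fin r → ℤ := fun p => fun i => X p.1 i / (L : ℤ) with hQ
  have c1 := ch_symm ν Z Q (fun p => F p.1)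
  have c2 : r * Real.logb 2 L * mass μ ≤ CH ν Z (fun p => (Q p, F p.1)) := by
    have h4 : CH ν Z (fun p => p.1) = r * Real.logb 2 L * mass μ := by
      rw [← hcard, ← nu_CH_snd (Fin r → Fin L) μ]
      apply ch_congr_left
      intro p p' _ _ h
      constructor
      · intro e
        funext i
        have h5 := congrFun e i
        simp only [hZ, h] at h5
        apply Fin.ext
        have h6 := add_left_cancel h5
        exact_mod_cast h6
      · intro e
        simp only [hZ, h, e]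
    rw [← h4]
    apply ch_cond ν hν0
    intro p p' _ _ h
    rw [Prod.mk.injEq]
    exact ⟨by simp only [hQ, h], by rw [h]⟩
  have c3 : CH ν Q (fun p => (Z p, F p.1)) ≤ r * mass μ := by
    have h7 := st_E3.2 (Ω × (Fin r → Fin L)) ((Fin r → ℤ) × φ) r ν Q (fun p => (Z p, F p.1)) 1 hν0
      zero_le_one (by
        intro p p' _ _ h i
        rw [Prod.mk.injEq] at h
        have h8 := congrFun h.1 i
        simp only [hZ] at h8
        have h9 : (((p.2 i : ℕ) : ℤ)) < L := by exact_mod_cast (p.2 i).2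
        have h10 : (((p'.2 i : ℕ) : ℤ)) < L := by exact_mod_cast (p'.2 i).2
        have h11 : (0 : ℤ) ≤ ((p.2 i : ℕ) : ℤ) := by positivity
        have h12 : (0 : ℤ) ≤ ((p'.2 i : ℕ) : ℤ) := by positivity
        have a1 : X p.1 i ≤ X p'.1 i + L := by linarith
        have a2 : X p'.1 i ≤ X p.1 i + L := by linarith
        have a3 : X p.1 i / (L : ℤ) ≤ X p'.1 i / (L : ℤ) + 1 := by
          calc X p.1 i / (L : ℤ) ≤ (X p'.1 i + 1 * L) / (L : ℤ) :=
                Int.ediv_le_ediv hL0 (by linarith)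
            _ = X p'.1 i / (L : ℤ) + 1 := Int.add_mul_ediv_right _ _ hL0.ne'
        have a4 : X p'.1 i / (L : ℤ) ≤ X p.1 i / (L : ℤ) + 1 := by
          calc X p'.1 i / (L : ℤ) ≤ (X p.1 i + 1 * L) / (L : ℤ) :=
                Int.ediv_le_ediv hL0 (by linarith)
            _ = X p.1 i / (L : ℤ) + 1 := Int.add_mul_ediv_right _ _ hL0.ne'
        simp only [hQ]
        rw [abs_le]
        constructor
        · have : ((X p'.1 i / (L : ℤ) : ℤ) : ℝ) ≤ ((X p.1 i / (L : ℤ) : ℤ) : ℝ) + 1 := by exact_mod_cast a4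
          linarith
        · have : ((X p.1 i / (L : ℤ) : ℤ) : ℝ) ≤ ((X p'.1 i / (L : ℤ) : ℤ) : ℝ) + 1 := by exact_mod_cast a3
          linarith)
    rw [hνm, show (1 : ℝ) + 1 = 2 by norm_num, Real.logb_self_eq_one (by norm_num), mul_one] at h7
    exact h7
  have c4 : CH ν Q (fun p => F p.1) = CH μ (fun ω i => X ω i / (L : ℤ)) F :=
    nu_CH_fst (Fin r → Fin L) μ (fun ω i => X ω i / (L : ℤ)) F
  rw [c4] at c1
  linarith

end Pool.Agent.Helper66.VW
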